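import Pool.Agent.Helper45.AM.GoalsA

/-!
# Packet AM-AQ (MP_cc6379_al)
-/

set_option autoImplicit false

open LaurentPolynomial Pool.Agent.Helper15.RA

namespace Pool.Agent.Helper85.AM

open Pool.Agent.Helper45.AM

theorem degLE_le {a b : ℤ} {p : ℤ[T;T⁻¹]} (h : DegLE b p) (h0 : p.coeff a ≠ 0) : a ≤ b := by
  by_contra hlt
  exact h0 (h a (not_le.1 hlt))

/-- Packet AM-AQ. -/
theorem h_a_q (hS : A_S) (hJ : A_J) : A_Q := by
  intro S W H _ _ _ X P Q α β hPQ hP hQ w hw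
  have hmono : par X.cs P ≤ par X.cs Q := Subgroup.closure_mono (Set.image_mono hPQ)
  obtain ⟨-, -, -, -, -, hmul, -⟩ := hS S W H X P
  obtain ⟨hJ1, -⟩ := hJ S W H X P α hP
  apply le_antisymm
  · obtain ⟨x, hx, y, hy, h0⟩ := hP.low w hw
    exact_mod_cast degLE_le (hQ.deg x (hmono hx) y (hmono hy) w (hmono hw)) h0
  · have hw' : w⁻¹ ∈ par X.cs P := inv_mem hw
    have h1 := hJ1 w hw w⁻¹ hw' (mul_inv_cancel w)
    have h2 : ∃ d ∈ (X.h w w⁻¹).support, ((X.h w w⁻¹) d).coeff (α d) *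
        (X.D.t.repr (X.D.c d) 1).coeff (-(α d : ℤ)) ≠ 0 := by
      by_contra hcon
      push Not at hcon
      rw [Finsupp.sum, Finset.sum_eq_zero hcon] at h1
      exact zero_ne_one h1
    obtain ⟨d, hd, h0⟩ := h2
    have h3 : ((X.h w w⁻¹) d).coeff (α d) ≠ 0 := left_ne_zero_of_mul h0
    have h4 : (X.D.t.repr (X.D.c d) 1).coeff (-(α d : ℤ)) ≠ 0 := right_ne_zero_of_mul h0
    have hd0 : X.h w w⁻¹ d ≠ 0 := Finsupp.mem_support_iff.1 hd
    have hdP : d ∈ par X.cs P := hmul w hw w⁻¹ hw' d hd0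
    have h5 := degLE_le (hQ.p1 d (hmono hdP)) h4
    have h6 := (hP.p8 w hw w⁻¹ hw' d hdP h3).1
    have h7 := (hQ.p4 w (hmono hw) w⁻¹ (hmono hw') d (hmono hdP) hd0).1
    omega

end Pool.Agent.Helper85.AM
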